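import Mathlib
import Pool.Agent.V11309.Uni.Single

/-!
# MP_bdab2f_nt, Q2: a base in the closure of the univoque bases with a one-point level set

Let `a ≈ 1.88004` be the root of `q^7 = q^6 + q^5 + q^4 + q + 1` in `(1.88, 1.8801)` (the base
whose quasi-greedy expansion of `1` is `(1110010)^∞`).  We prove that `a` lies in the closure of
the set of univoque bases, that `a` is smaller than the supremum of `q_s`, and that the level set
`L(a)` is the single point `1/a + 1/(a^4 (a-1))`.  This disproves Q2.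
-/

namespace Pool.Agent.Results.MP_bdab2f_nt.SingletonLevel

/-- `d` is a `q`-expansion of `x`: digits in `{0,1}` (`Fin 2`), `x = ∑_{i≥1} d_i q^{-i}` (the
digit `d_i` of the text is `d (i-1)`). -/
def IsExpansion (q x : ℝ) (d : ℕ → Fin 2) : Prop :=
  HasSum (fun i : ℕ => (((d i : Fin 2) : ℕ) : ℝ) / q ^ (i + 1)) x

/-- The set `𝒰(x)` of bases `q ∈ (1,2]` in which `x` has exactly one `q`-expansion. -/
def univoqueBases (x : ℝ) : Set ℝ :=
  {q | 1 < q ∧ q ≤ 2 ∧ ∃! d : ℕ → Fin 2, IsExpansion q x d}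

/-- The smallest univoque base `q_s(x) = inf 𝒰(x)`. -/
noncomputable def qs (x : ℝ) : ℝ := sInf (univoqueBases x)

/-- The level set `L(q) = {x > 0 : q_s(x) = q}`. -/
def levelSet (q : ℝ) : Set ℝ := {x | 0 < x ∧ qs x = q}

/-- The largest value of `q_s` on `(0, ∞)` (written as a supremum). -/
noncomputable def qMax : ℝ := sSup (qs '' Set.Ioi 0)

/-- Disproof of Q2.  There is `a ∈ closure 𝒰(1)` with `1 < a < q_max` (indeed
`1.88 < a < 1.8801` and `a^7 = a^6 + a^5 + a^4 + a + 1`) whose level set is a single point; hence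
it is not true that `L(q)` is infinite for every `q` in the closure of `𝒰(1)` with
`1 < q ≤ q_max`. -/
theorem result :
    (∃ a : ℝ, a ∈ closure (univoqueBases 1) ∧ 1.88 < a ∧ a < 1.8801 ∧
      a ^ 7 = a ^ 6 + a ^ 5 + a ^ 4 + a + 1 ∧ a < qMax ∧ (∃ x : ℝ, 0 < x ∧ a < qs x) ∧
      levelSet a = {1 / a + 1 / (a ^ 4 * (a - 1))}) ∧
    ¬ (∀ q ∈ closure (univoqueBases 1), 1 < q → q ≤ qMax → (levelSet q).Infinite) := by
  have hset : ∀ x, univoqueBases x = V11309.Uni.Ux x := fun x => rfl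
  have main : ∃ a : ℝ, a ∈ closure (univoqueBases 1) ∧ 1.88 < a ∧ a < 1.8801 ∧
      a ^ 7 = a ^ 6 + a ^ 5 + a ^ 4 + a + 1 ∧ a < qMax ∧ (∃ x : ℝ, 0 < x ∧ a < qs x) ∧
      levelSet a = {1 / a + 1 / (a ^ 4 * (a - 1))} := by
    obtain ⟨a, ha1, ha2, hga⟩ := V11309.Uni.exists_base
    have hlarge := V11309.Uni.exists_larger ha1 ha2
    refine ⟨a, V11309.Uni.mem_closure_base ha1 ha2 hga, ha1, ha2, ?_, ?_, hlarge, ?_⟩
    · have : a ^ 7 - a ^ 6 - a ^ 5 - a ^ 4 - a - 1 = 0 := hga
      linarith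
    · obtain ⟨x, hx, hax⟩ := hlarge
      have hbdd : BddAbove (qs '' Set.Ioi 0) := by
        refine ⟨2, ?_⟩
        rintro _ ⟨y, _, rfl⟩
        unfold qs
        rcases Set.eq_empty_or_nonempty (univoqueBases y) with he | ⟨q, hq⟩
        · rw [he, Real.sInf_empty]; norm_num
        · exact le_trans (csInf_le ⟨1, fun _ h => h.1.le⟩ hq) hq.2.1
      exact lt_of_lt_of_le hax (le_csSup hbdd ⟨x, hx, rfl⟩)
    · ext x
      constructor
      · rintro ⟨h1, h2⟩
        exact V11309.Uni.level_subset ha1 ha2 hga h1 h2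
      · intro h
        rw [Set.mem_singleton_iff] at h
        subst h
        exact V11309.Uni.mem_level ha1 ha2 hga
  refine ⟨main, ?_⟩
  intro h
  obtain ⟨a, hcl, ha1, _, _, ha2, _, hL⟩ := main
  have hinf := h a hcl (by norm_num at ha1; linarith) ha2.le
  rw [hL] at hinf
  exact hinf (Set.finite_singleton _)

end Pool.Agent.Results.MP_bdab2f_nt.SingletonLevel
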